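import Pool.Agent.T9h59.SR.Tri
import Pool.Agent.T9h80.SR.Q3

set_option autoImplicit false

/-!
# (T6) Sums of three regular indices
-/

namespace Pool.Agent.T9h51.SR

open Finset Pool.Agent.T9h59.SR Pool.Agent.T9h29.NR Pool.Agent.H332R2

/-- the index `i` is regular -/
def Reg (p i : ℕ) : Prop := ¬ ((p : ℤ) ∣ (_root_.bernoulli (2 * i)).num)

/-- a regular index `s ≥ 2` is the sum of two regular indices -/
theorem split (p : ℕ) [Fact p.Prime] (s : ℕ) (hs : 2 * s + 3 ≤ p) (h2 : 2 ≤ s) (h : Reg p s) :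
    ∃ a b : ℕ, 1 ≤ a ∧ 1 ≤ b ∧ a + b = s ∧ Reg p a ∧ Reg p b := by
  have h8 := Pool.Agent.TH350.SumReg.main (p := p) s (by omega) (by omega) h (Rk p s)
    (by
      intro i h1 h2 h3 h4
      rw [Rk, mem_filter, mem_Ioo]
      exact ⟨⟨h1, h2⟩, h3, h4⟩)
    (by
      intro i hi
      rw [Rk, mem_filter, mem_Ioo] at hi
      exact hi.1)
  have h9 : (Rk p s).Nonempty := by
    rw [nonempty_iff_ne_empty]
    intro h10
    rw [h10, card_empty] at h8
    omega
  obtain ⟨m, hm⟩ := h9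
  rw [Rk, mem_filter, mem_Ioo] at hm
  exact ⟨m, s - m, by omega, by omega, by omega, hm.2.1, hm.2.2⟩

/-- three regular indices with sum `s` -/
def Three (p s : ℕ) : Prop := ∃ i j l : ℕ, 1 ≤ i ∧ 1 ≤ j ∧ 1 ≤ l ∧ i + j + l = s ∧
  Reg p i ∧ Reg p j ∧ Reg p l

theorem three_of_two (p : ℕ) [Fact p.Prime] (s : ℕ) (hs : 2 * s + 3 ≤ p) (h3 : 3 ≤ s) (i j : ℕ)
    (hi : 1 ≤ i) (hj : 1 ≤ j) (hij : i + j = s) (hri : Reg p i) (hrj : Reg p j) : Three p s := by
  by_cases h : 2 ≤ i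
  · obtain ⟨a, b, ha, hb, hab, hra, hrb⟩ := split p i (by omega) h hri
    exact ⟨a, b, j, ha, hb, hj, by omega, hra, hrb, hrj⟩
  · obtain ⟨a, b, ha, hb, hab, hra, hrb⟩ := split p j (by omega) (by omega) hrj
    exact ⟨i, a, b, hi, ha, hb, by omega, hri, hra, hrb⟩

theorem three_of_one (p : ℕ) [Fact p.Prime] (s : ℕ) (hs : 2 * s + 3 ≤ p) (h3 : 3 ≤ s)
    (h : Reg p s) : Three p s := by
  obtain ⟨a, b, ha, hb, hab, hra, hrb⟩ := split p s hs (by omega) h
  exact three_of_two p s hs h3 a b ha hb hab hra hrb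

/-- (T6) -/
theorem stT6 : StT6 := by
  classical
  intro p hp K hK s hs h3
  have hcc : ∀ m, m ≤ K → cc p (2 * m) ≠ 0 → 1 ≤ m → Reg p m := by
    intro m hm h _ h'
    exact h ((cc_eq_zero_iff (p := p) (k := 2 * m) (by omega) (by omega)).2 h')
  unfold SS3 at hs
  rw [mem_filter, mem_range] at hs
  obtain ⟨hsK, i, j, l, hijl, hi, hj, hl⟩ := hs
  have hs' : 2 * s + 3 ≤ p := by omega
  show Three p s
  rcases Nat.eq_zero_or_pos i with hi0 | hi0 <;> rcases Nat.eq_zero_or_pos j with hj0 | hj0 <;>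
    rcases Nat.eq_zero_or_pos l with hl0 | hl0
  · omega
  · have : l = s := by omega
    subst this
    exact three_of_one p l hs' h3 (hcc l (by omega) hl hl0)
  · have : j = s := by omega
    subst this
    exact three_of_one p j hs' h3 (hcc j (by omega) hj hj0)
  · exact three_of_two p s hs' h3 j l hj0 hl0 (by omega) (hcc j (by omega) hj hj0)
      (hcc l (by omega) hl hl0)
  · have : i = s := by omega
    subst this
    exact three_of_one p i hs' h3 (hcc i (by omega) hi hi0)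
  · exact three_of_two p s hs' h3 i l hi0 hl0 (by omega) (hcc i (by omega) hi hi0)
      (hcc l (by omega) hl hl0)
  · exact three_of_two p s hs' h3 i j hi0 hj0 (by omega) (hcc i (by omega) hi hi0)
      (hcc j (by omega) hj hj0)
  · exact ⟨i, j, l, hi0, hj0, hl0, hijl, hcc i (by omega) hi hi0, hcc j (by omega) hj hj0,
      hcc l (by omega) hl hl0⟩

end Pool.Agent.T9h51.SR
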