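import Pool.Agent.T9h59.SR.Tri

set_option autoImplicit false

/-!
# (T1) The sum of `(e / ℓ) log ℓ` over the prime factors of `e`
-/

namespace Pool.Agent.T9h51.SR

open Finset

theorem card_primes_le (S : Finset ℕ) (hS : ∀ l ∈ S, l.Prime) (M : ℕ) (hM : ∀ l ∈ S, l ≤ M) :
    2 * S.card ≤ M + 1 := by
  rcases S.eq_empty_or_nonempty with rfl | ⟨l0, hl0⟩
  · simp
  have hM2 : 2 ≤ M := (hS l0 hl0).two_le.trans (hM l0 hl0)
  have hsub : S ⊆ insert 2 ((Icc 1 ((M - 1) / 2)).image (fun i => 2 * i + 1)) := by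
    intro l hl
    rw [mem_insert, mem_image]
    rcases (hS l hl).eq_two_or_odd with h | h
    · exact Or.inl h
    · right
      have h2 := (hS l hl).two_le
      have h3 := hM l hl
      exact ⟨l / 2, mem_Icc.mpr ⟨by omega, by omega⟩, by omega⟩
  have h1 := card_le_card hsub
  have h2 := card_insert_le 2 ((Icc 1 ((M - 1) / 2)).image (fun i => 2 * i + 1))
  have h3 := card_image_le (s := Icc 1 ((M - 1) / 2)) (f := fun i => 2 * i + 1)
  rw [Nat.card_Icc] at h3
  omega

theorem prod_pow (k : ℕ) (hk : 1 ≤ k) : ∀ S : Finset ℕ, S.card = k → (∀ l ∈ S, l.Prime) →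
    (∏ l ∈ S, ((l : ℝ) / (l - 1))) ^ 4 ≤ 16 * (k : ℝ) ^ 3 := by
  induction k, hk using Nat.le_induction with
  | base =>
    intro S hS hp
    obtain ⟨l, rfl⟩ := card_eq_one.mp hS
    rw [prod_singleton]
    have h2 : (2 : ℝ) ≤ l := by exact_mod_cast (hp l (mem_singleton_self l)).two_le
    have h1 : (l : ℝ) / (l - 1) ≤ 2 := by
      rw [div_le_iff₀ (by linarith)]
      linarith
    have h0 : 0 ≤ (l : ℝ) / (l - 1) := div_nonneg (by linarith) (by linarith)
    calc ((l : ℝ) / (l - 1)) ^ 4 ≤ 2 ^ 4 := pow_le_pow_left₀ h0 h1 4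
      _ = _ := by norm_num
  | succ k hk ih =>
    intro S hS hp
    have hne : S.Nonempty := card_pos.mp (by omega)
    have hMS := S.max'_mem hne
    have hM := card_primes_le S hp (S.max' hne) (fun l hl => S.le_max' l hl)
    generalize S.max' hne = M at hMS hM
    rw [← mul_prod_erase S _ hMS]
    have h1 := ih (S.erase M) (by rw [card_erase_of_mem hMS, hS]; rfl)
      (fun l hl => hp l (mem_of_mem_erase hl))
    have hMr : (2 * k + 1 : ℝ) ≤ M := by exact_mod_cast (by omega : 2 * k + 1 ≤ M)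
    have hkr : (1 : ℝ) ≤ k := by exact_mod_cast hk
    have h2 : (M : ℝ) / (M - 1) ≤ (2 * k + 1) / (2 * k) := by
      rw [div_le_div_iff₀ (by linarith) (by positivity)]
      nlinarith
    have h3 : 0 ≤ (M : ℝ) / (M - 1) := div_nonneg (by positivity) (by linarith)
    rw [mul_pow]
    calc ((M : ℝ) / (M - 1)) ^ 4 * (∏ x ∈ S.erase M, ((x : ℝ) / (x - 1))) ^ 4
        ≤ ((2 * k + 1) / (2 * k)) ^ 4 * (16 * k ^ 3) :=
          mul_le_mul (pow_le_pow_left₀ h3 h2 4) h1 (by positivity) (by positivity)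
      _ ≤ 16 * ((k + 1 : ℕ) : ℝ) ^ 3 := by
        push_cast
        rw [div_pow, div_mul_eq_mul_div, div_le_iff₀ (by positivity)]
        have h4 : (2 * (k : ℝ) + 1) ^ 4 ≤ 16 * k * (k + 1) ^ 3 := by
          nlinarith [pow_pos (by linarith : (0 : ℝ) < k) 3, pow_pos (by linarith : (0 : ℝ) < k) 2]
        calc (2 * (k : ℝ) + 1) ^ 4 * (16 * k ^ 3) ≤ (16 * k * (k + 1) ^ 3) * (16 * k ^ 3) :=
              mul_le_mul_of_nonneg_right h4 (by positivity)
          _ = 16 * (k + 1) ^ 3 * (2 * k) ^ 4 := by ring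

theorem log_div_le (M k : ℕ) (hM : k + 2 ≤ M) :
    Real.log M / M ≤ (1 + Real.log ((k + 1 : ℕ) + 1)) ^ 2 - (1 + Real.log (k + 1)) ^ 2 := by
  have hMr : ((k : ℝ) + 2) ≤ M := by exact_mod_cast hM
  have hk0 : (0 : ℝ) ≤ k := Nat.cast_nonneg k
  have hcast : (((k + 1 : ℕ) : ℝ) + 1) = (k : ℝ) + 2 := by push_cast; ring
  rw [hcast]
  set a := Real.log ((k : ℝ) + 1) with ha
  set b := Real.log ((k : ℝ) + 2) with hb
  have ha0 : 0 ≤ a := Real.log_nonneg (by linarith)
  have hab : 1 / ((k : ℝ) + 2) ≤ b - a := by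
    rw [hb, ha, ← Real.log_div (by positivity) (by positivity)]
    have h1 := Real.one_sub_inv_le_log_of_pos (x := ((k : ℝ) + 2) / (k + 1)) (by positivity)
    refine le_trans (le_of_eq ?_) h1
    field_simp
    ring
  have hb0 : 0 ≤ b := Real.log_nonneg (by linarith)
  have hfac : (1 + b) ^ 2 - (1 + a) ^ 2 = (b - a) * (2 + a + b) := by ring
  rw [hfac]
  have hpos : 0 < (k : ℝ) + 2 := by positivity
  have h2 : (1 / ((k : ℝ) + 2)) * (2 + b) ≤ (b - a) * (2 + a + b) :=
    mul_le_mul hab (by linarith) (by linarith) (le_trans (by positivity) hab)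
  refine le_trans ?_ h2
  rcases Nat.eq_zero_or_pos k with hk | hk
  · subst hk
    have hM0 : (0 : ℝ) < M := by linarith
    have h3 : Real.log M / M ≤ 1 := by
      rw [div_le_one hM0]
      linarith [Real.log_le_sub_one_of_pos hM0]
    refine h3.trans ?_
    norm_num
    linarith
  · have h3 : Real.log M / M ≤ Real.log ((k : ℝ) + 2) / (k + 2) := by
      have he : Real.exp 1 ≤ (k : ℝ) + 2 := by
        have := Real.exp_one_lt_d9
        have hk1 : (1 : ℝ) ≤ k := by exact_mod_cast hk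
        linarith
      exact Real.log_div_self_antitoneOn he (le_trans he hMr) hMr
    refine h3.trans ?_
    rw [← hb, one_div, inv_mul_eq_div]
    gcongr
    linarith

theorem sum_log (k : ℕ) : ∀ S : Finset ℕ, S.card = k → (∀ l ∈ S, 2 ≤ l) →
    ∑ l ∈ S, Real.log l / l ≤ (1 + Real.log (k + 1)) ^ 2 := by
  induction k with
  | zero =>
    intro S hS _
    rw [card_eq_zero.mp hS]
    simp
  | succ k ih =>
    intro S hS h2
    have hne : S.Nonempty := card_pos.mp (by omega)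
    have hMS := S.max'_mem hne
    have hM : k + 2 ≤ S.max' hne := by
      have h3 : S ⊆ Icc 2 (S.max' hne) := fun l hl => mem_Icc.mpr ⟨h2 l hl, S.le_max' l hl⟩
      have h4 := card_le_card h3
      rw [Nat.card_Icc, hS] at h4
      omega
    generalize S.max' hne = M at hMS hM
    rw [← add_sum_erase S _ hMS]
    have h1 := ih (S.erase M) (by rw [card_erase_of_mem hMS, hS]; rfl)
      (fun l hl => h2 l (mem_of_mem_erase hl))
    have h3 := log_div_le M k hM
    linarith

theorem log_pow (k : ℕ) (hk : 1 ≤ k) :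
    (1 + Real.log (k + 1)) ^ 16 ≤ (Nat.factorial 16 : ℝ) * 6 * k := by
  have hkr : (1 : ℝ) ≤ k := by exact_mod_cast hk
  have h0 : 0 ≤ 1 + Real.log ((k : ℝ) + 1) := by
    have := Real.log_nonneg (by linarith : (1 : ℝ) ≤ k + 1)
    linarith
  have h1 := Real.pow_div_factorial_le_exp (1 + Real.log ((k : ℝ) + 1)) h0 16
  rw [div_le_iff₀ (by positivity), Real.exp_add, Real.exp_log (by positivity)] at h1
  refine h1.trans ?_
  have h2 : Real.exp 1 ≤ 3 := by linarith [Real.exp_one_lt_d9]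
  have h3 : Real.exp 1 * ((k : ℝ) + 1) ≤ 6 * k := by nlinarith [Real.exp_pos 1]
  have h4 : (0 : ℝ) ≤ (Nat.factorial 16 : ℝ) := by positivity
  nlinarith [mul_le_mul_of_nonneg_right h3 h4]

theorem totient_prod (e : ℕ) :
    (e : ℝ) = Nat.totient e * ∏ l ∈ e.primeFactors, ((l : ℝ) / (l - 1)) := by
  have h1 := Nat.totient_mul_prod_primeFactors e
  have h2 : (Nat.totient e : ℝ) * ∏ l ∈ e.primeFactors, (l : ℝ) =
      e * ∏ l ∈ e.primeFactors, ((l : ℝ) - 1) := by
    have h3 : ((Nat.totient e * ∏ l ∈ e.primeFactors, l : ℕ) : ℝ) =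
        ((e * ∏ l ∈ e.primeFactors, (l - 1) : ℕ) : ℝ) := by rw [h1]
    push_cast at h3
    rw [h3]
    congr 1
    apply prod_congr rfl
    intro l hl
    rw [Nat.cast_sub (Nat.prime_of_mem_primeFactors hl).one_le, Nat.cast_one]
  have h4 : ∏ l ∈ e.primeFactors, ((l : ℝ) - 1) ≠ 0 := by
    rw [prod_ne_zero_iff]
    intro l hl
    have := (Nat.prime_of_mem_primeFactors hl).two_le
    have h5 : (2 : ℝ) ≤ l := by exact_mod_cast this
    linarith
  rw [prod_div_distrib, mul_div_assoc', h2]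
  field_simp

theorem main (δ : ℝ) (hδ : 0 < δ) : ∃ A : ℝ, ∀ e : ℕ, 1 ≤ e →
    ∑ ℓ ∈ e.primeFactors, ((e / ℓ : ℕ) : ℝ) * Real.log ℓ ≤ Nat.totient e * (δ * Real.log e + A) := by
  have hl2 : 0 < Real.log 2 := Real.log_pos (by norm_num)
  set δ' := δ * Real.log 2 with hδ'
  have hδ'0 : 0 < δ' := mul_pos hδ hl2
  set A := 256 * ((Nat.factorial 16 : ℝ) * 6) / δ' ^ 7 with hA
  have hA0 : 0 ≤ A := by positivity
  refine ⟨A, fun e he => ?_⟩
  have hloge : 0 ≤ Real.log e := Real.log_nonneg (by exact_mod_cast he)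
  rcases Nat.eq_zero_or_pos e.primeFactors.card with hk | hk
  · rw [card_eq_zero.mp hk, sum_empty]
    positivity
  set k := e.primeFactors.card with hkdef
  have hkr : (1 : ℝ) ≤ k := by exact_mod_cast hk
  set P := ∏ l ∈ e.primeFactors, ((l : ℝ) / (l - 1)) with hP
  set Sg := ∑ l ∈ e.primeFactors, Real.log l / l with hSg
  have hprime : ∀ l ∈ e.primeFactors, l.Prime := fun l hl => Nat.prime_of_mem_primeFactors hl
  have h1 : P ^ 4 ≤ 16 * (k : ℝ) ^ 3 := prod_pow k hk _ rfl hprime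
  have h2 : Sg ≤ (1 + Real.log (k + 1)) ^ 2 := sum_log k _ rfl (fun l hl => (hprime l hl).two_le)
  have h3 := log_pow k hk
  have hP0 : 0 ≤ P := prod_nonneg fun l hl => by
    have h5 : (2 : ℝ) ≤ l := by exact_mod_cast (hprime l hl).two_le
    exact div_nonneg (by linarith) (by linarith)
  have hS0 : 0 ≤ Sg := sum_nonneg fun l hl => by
    have h5 : (2 : ℝ) ≤ l := by exact_mod_cast (hprime l hl).two_le
    exact div_nonneg (Real.log_nonneg (by linarith)) (by linarith)
  have h4 : (P * Sg) ^ 8 ≤ (δ' * k + A) ^ 8 := by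
    calc (P * Sg) ^ 8 = (P ^ 4) ^ 2 * Sg ^ 8 := by ring
      _ ≤ (16 * (k : ℝ) ^ 3) ^ 2 * ((1 + Real.log (k + 1)) ^ 2) ^ 8 := by gcongr
      _ = 256 * (k : ℝ) ^ 6 * (1 + Real.log (k + 1)) ^ 16 := by ring
      _ ≤ 256 * (k : ℝ) ^ 6 * ((Nat.factorial 16 : ℝ) * 6 * k) := by gcongr
      _ = (δ' * k) ^ 7 * A := by
        rw [hA]
        field_simp
      _ ≤ (δ' * k + A) ^ 7 * (δ' * k + A) := by
        have : 0 ≤ δ' * k := by positivity
        gcongr <;> linarith
      _ = _ := by ring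
  have h5 : P * Sg ≤ δ' * k + A := by
    have h6 : 0 ≤ δ' * (k : ℝ) + A := by positivity
    exact le_of_pow_le_pow_left₀ (by norm_num) h6 h4
  have h6 : (k : ℝ) * Real.log 2 ≤ Real.log e := by
    have h7 : 2 ^ k ≤ e := by
      calc 2 ^ k ≤ ∏ l ∈ e.primeFactors, l :=
            pow_card_le_prod _ _ _ (fun l hl => (hprime l hl).two_le)
        _ ≤ e := Nat.le_of_dvd he (Nat.prod_primeFactors_dvd e)
    have h8 : (2 : ℝ) ^ k ≤ e := by exact_mod_cast h7
    have h9 := Real.log_le_log (by positivity) h8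
    rwa [Real.log_pow] at h9
  calc ∑ ℓ ∈ e.primeFactors, ((e / ℓ : ℕ) : ℝ) * Real.log ℓ
      ≤ ∑ ℓ ∈ e.primeFactors, (e : ℝ) * (Real.log ℓ / ℓ) := by
        apply sum_le_sum
        intro l hl
        have h7 : ((e / l : ℕ) : ℝ) ≤ e / l := Nat.cast_div_le
        have h8 : 0 ≤ Real.log l := Real.log_nonneg (by exact_mod_cast (hprime l hl).one_le)
        calc ((e / l : ℕ) : ℝ) * Real.log l ≤ e / l * Real.log l := by gcongr
          _ = _ := by ring
    _ = e * Sg := by rw [hSg, mul_sum]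
    _ = Nat.totient e * (P * Sg) := by
        conv_lhs => rw [totient_prod e]
        rw [← hP]
        ring
    _ ≤ Nat.totient e * (δ' * k + A) := by gcongr
    _ ≤ Nat.totient e * (δ * Real.log e + A) := by
        have : δ' * k ≤ δ * Real.log e := by
          rw [hδ']
          nlinarith
        gcongr

/-- (T1) -/
theorem stT1 : Pool.Agent.T9h59.SR.StT1 := main

end Pool.Agent.T9h51.SR
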